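import Pool.Agent.Helper98.DISC.GoalsF

/-! # Project DISC, packet LAU: the Laurent coefficients at the integers. -/

open Finset

noncomputable section

namespace Pool.Agent.Helper34.DISC

open Pool.Agent.Helper98.DISC

/-- the field of Laurent series -/
abbrev LS := LaurentSeries ℚ

theorem ratCast_eq (q : ℚ) : (q : LS) = HahnSeries.C q := by
  have := map_ratCast (HahnSeries.C : ℚ →+* LS) q
  rw [Rat.cast_id] at this
  exact this.symm

theorem intCast_eq (m : ℤ) : (m : LS) = HahnSeries.C (m : ℚ) := by
  exact (map_intCast (HahnSeries.C : ℚ →+* LS) m).symm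

instance : CharZero LS :=
  charZero_of_injective_ringHom (f := (HahnSeries.C : ℚ →+* LS)) HahnSeries.C_injective

/-- a term with a different centre has no polar part -/
theorem coeff_other (c : ℚ) (hc : c ≠ 0) (a : ℚ) (k l : ℕ) :
    (((a : LS) / ((HahnSeries.C c : LS) + HahnSeries.single 1 1) ^ k : LS)).coeff (-(l + 1 : ℤ)) = 0 := by
  set p : PowerSeries ℚ := PowerSeries.C c + PowerSeries.X with hp
  have hp1 : ((p : PowerSeries ℚ) : LS) = (HahnSeries.C c : LS) + HahnSeries.single 1 1 := by
    rw [hp, PowerSeries.coe_add, PowerSeries.coe_C, PowerSeries.coe_X]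
  have hp0 : PowerSeries.constantCoeff p ≠ 0 := by
    rw [hp]; simpa using hc
  have hinv : ((p : PowerSeries ℚ) : LS) * ((p⁻¹ : PowerSeries ℚ) : LS) = 1 := by
    rw [← PowerSeries.coe_mul, PowerSeries.mul_inv_cancel _ hp0, PowerSeries.coe_one]
  have hinv2 : ((p : PowerSeries ℚ) : LS)⁻¹ = ((p⁻¹ : PowerSeries ℚ) : LS) :=
    inv_eq_of_mul_eq_one_right hinv
  have h : ((a : LS) / ((HahnSeries.C c : LS) + HahnSeries.single 1 1) ^ k : LS) =
      ((PowerSeries.C a * (p⁻¹) ^ k : PowerSeries ℚ) : LS) := by
    rw [PowerSeries.coe_mul, PowerSeries.coe_pow, PowerSeries.coe_C, ← hp1, div_eq_mul_inv,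
      ← inv_pow, hinv2, ratCast_eq]
  rw [h, PowerSeries.coeff_coe, if_pos (by omega)]

theorem coeff_same (a : ℚ) (k l : ℕ) :
    (((a : LS) / (HahnSeries.single (1 : ℤ) (1 : ℚ) : LS) ^ (k + 1) : LS)).coeff (-(l + 1 : ℤ)) =
      if k = l then a else 0 := by
  have h : ((a : LS) / (HahnSeries.single (1 : ℤ) (1 : ℚ) : LS) ^ (k + 1) : LS) =
      HahnSeries.single (-(k + 1 : ℤ)) a := by
    rw [div_eq_iff (by
      apply pow_ne_zero
      simp), HahnSeries.single_pow, HahnSeries.single_mul_single, ratCast_eq, HahnSeries.C_apply]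
    congr 1
    · simp
    · simp
  rw [h, HahnSeries.coeff_single]
  by_cases hkl : k = l
  · subst hkl; simp
  · rw [if_neg hkl, if_neg]
    intro h2
    apply hkl
    omega

theorem LAU : S_LAU := by
  intro n hn a h l hl
  set K : ℤ := ((n - 1 : ℕ) : ℤ) with hK
  have key : ∀ m : ℤ, (yF LS n ((m : LS) + HahnSeries.single 1 1)).coeff (-(l + 1 : ℤ)) =
      ∑ m' ∈ Finset.Icc (-K) K, if m = m' then a m l else 0 := by
    intro m
    have hne : ∀ m' ∈ Finset.Icc (-K) K, (m : LS) + HahnSeries.single 1 1 ≠ (m' : LS) := by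
      intro m' _ he
      have := congrArg (fun f : LS => f.coeff 1) he
      simp only [intCast_eq, HahnSeries.coeff_add, HahnSeries.C_apply] at this
      rw [HahnSeries.coeff_single_of_ne one_ne_zero, HahnSeries.coeff_single_of_ne one_ne_zero,
        HahnSeries.coeff_single_same] at this
      norm_num at this
    rw [h LS _ hne]
    rw [HahnSeries.coeff_sum]
    apply Finset.sum_congr rfl
    intro m' _
    rw [HahnSeries.coeff_sum]
    by_cases hm : m = m'
    · subst hm
      rw [if_pos rfl]
      have : ∀ k ∈ Finset.range n, (((a m k : ℚ) : LS) /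
          ((m : LS) + HahnSeries.single 1 1 - (m : LS)) ^ (k + 1)).coeff (-(l + 1 : ℤ)) =
          if k = l then a m k else 0 := by
        intro k _
        rw [add_sub_cancel_left, coeff_same]
      rw [Finset.sum_congr rfl this, Finset.sum_ite_eq', if_pos (Finset.mem_range.2 hl)]
    · rw [if_neg hm]
      apply Finset.sum_eq_zero
      intro k _
      have h1 : (m : LS) + HahnSeries.single 1 1 - (m' : LS) =
          (HahnSeries.C ((m : ℚ) - m') : LS) + HahnSeries.single 1 1 := by
        rw [intCast_eq, intCast_eq, map_sub]; ring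
      rw [h1]
      apply coeff_other
      intro h2
      apply hm
      exact_mod_cast sub_eq_zero.1 h2
  unfold Anl
  rw [Finset.sum_congr rfl (fun m _ => key m), Finset.sum_comm]
  apply Finset.sum_congr rfl
  intro m' hm'
  rw [Finset.sum_ite_eq' , if_pos]
  rw [Finset.mem_Icc] at hm' ⊢
  constructor <;> omega

end Pool.Agent.Helper34.DISC
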